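import Pool.Agent.KS6_49.TI.Cover
import Pool.Agent.KS6_49.TI.Thirds
import Pool.Agent.KS6_49.TI.ExcData

/-!
The value of the three intervals game with lengths `1/u`, `1/v`, `1/w` for all `3 ≤ u ≤ v ≤ w`.
-/

namespace Pool.Agent.Results.MP_d7a06f_lc.Value

open Pool.Agent.KS6_49.TI

/-- The closed form. It is `1 - 1/u - 1/v - 1/w`, except when `u = v = 3`, where it is
`(1/3)(1 - 1/⌈w/3⌉)` (the natural number quotient `(w + 2) / 3` is `⌈w/3⌉`), and for ten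
further triples. -/
noncomputable def value (u v w : ℕ) : ℝ :=
  if u = 3 ∧ v = 3 then 1 / 3 * (1 - 1 / (((w + 2) / 3 : ℕ) : ℝ))
  else if u = 3 ∧ v = 4 ∧ w = 4 then 1 / 5
  else if u = 3 ∧ v = 4 ∧ w = 5 then 13 / 56
  else if u = 3 ∧ v = 4 ∧ w = 7 then 13 / 47
  else if u = 3 ∧ v = 4 ∧ w = 8 then 5 / 17
  else if u = 3 ∧ v = 4 ∧ w = 10 then 13 / 41
  else if u = 3 ∧ v = 4 ∧ w = 11 then 31 / 95
  else if u = 3 ∧ v = 4 ∧ w = 13 then 15 / 44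
  else if u = 3 ∧ v = 4 ∧ w = 17 then 34 / 95
  else if u = 3 ∧ v = 5 ∧ w = 5 then 3 / 11
  else if u = 3 ∧ v = 5 ∧ w = 7 then 53 / 163
  else 1 - 1 / (u : ℝ) - 1 / (v : ℝ) - 1 / (w : ℝ)

theorem result (u v w : ℕ) (hu : 3 ≤ u) (huv : u ≤ v) (hvw : v ≤ w) :
    G ![1 / (u : ℝ), 1 / (v : ℝ), 1 / (w : ℝ)] = value u v w := by
  unfold value
  split_ifs with h0 h1 h2 h3 h4 h5 h6 h7 h8 h9 h10
  · obtain ⟨rfl, rfl⟩ := h0
    rw [Nat.cast_ofNat]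
    exact le_antisymm (G_thirds_le (by omega) (by omega))
      (le_G_thirds (by omega) (by omega) (by omega))
  · obtain ⟨rfl, rfl, rfl⟩ := h1
    exact_mod_cast val_3_4_4
  · obtain ⟨rfl, rfl, rfl⟩ := h2
    exact_mod_cast val_3_4_5
  · obtain ⟨rfl, rfl, rfl⟩ := h3
    exact_mod_cast val_3_4_7
  · obtain ⟨rfl, rfl, rfl⟩ := h4
    exact_mod_cast val_3_4_8
  · obtain ⟨rfl, rfl, rfl⟩ := h5
    exact_mod_cast val_3_4_10
  · obtain ⟨rfl, rfl, rfl⟩ := h6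
    exact_mod_cast val_3_4_11
  · obtain ⟨rfl, rfl, rfl⟩ := h7
    exact_mod_cast val_3_4_13
  · obtain ⟨rfl, rfl, rfl⟩ := h8
    exact_mod_cast val_3_4_17
  · obtain ⟨rfl, rfl, rfl⟩ := h9
    exact_mod_cast val_3_5_5
  · obtain ⟨rfl, rfl, rfl⟩ := h10
    exact_mod_cast val_3_5_7
  · refine le_antisymm ?_ ?_
    · refine G_le_of_good (by omega) (by omega) (by omega) (good_all hu huv hvw ?_)
      rw [Bool.eq_false_iff]
      intro hex
      simp only [excB, List.any_cons, List.any_nil, Bool.or_false, Bool.or_eq_true,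
        Bool.and_eq_true, Nat.beq_eq, Bool.not_eq_true'] at hex
      rcases hex with (⟨⟨rfl, rfl⟩, _⟩ | ⟨⟨rfl, rfl⟩, h⟩) | ⟨⟨rfl, rfl⟩, h⟩
      · exact h0 ⟨rfl, rfl⟩
      · rcases h with h | h | h | h | h | h | h | h
        · exact h1 ⟨rfl, rfl, h⟩
        · exact h2 ⟨rfl, rfl, h⟩
        · exact h3 ⟨rfl, rfl, h⟩
        · exact h4 ⟨rfl, rfl, h⟩
        · exact h5 ⟨rfl, rfl, h⟩
        · exact h6 ⟨rfl, rfl, h⟩
        · exact h7 ⟨rfl, rfl, h⟩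
        · exact h8 ⟨rfl, rfl, h⟩
      · rcases h with h | h
        · exact h9 ⟨rfl, rfl, h⟩
        · exact h10 ⟨rfl, rfl, h⟩
    · exact generic_le_G (α := ![1 / (u : ℝ), 1 / (v : ℝ), 1 / (w : ℝ)]) (fun i => by
        fin_cases i
        · exact (by positivity : (0:ℝ) ≤ 1 / (u : ℝ))
        · exact (by positivity : (0:ℝ) ≤ 1 / (v : ℝ))
        · exact (by positivity : (0:ℝ) ≤ 1 / (w : ℝ)))

end Pool.Agent.Results.MP_d7a06f_lc.Value
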